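import Pool.Agent.H24.SCG.Base

/-!
# ST4: the criterion for rank four
-/

namespace Pool.Agent.H43.SCG

open Pool.SCG

section aux

variable {G : Type} [Group G]

/-- elements of the group generated by an involution -/
theorem mem_cl_one {a x : G} (ha : a * a = 1) (h : x ∈ Subgroup.closure ({a} : Set G)) :
    x = 1 ∨ x = a := by
  induction h using Subgroup.closure_induction with
  | mem y hy => right; exact hy
  | one => left; rfl
  | mul y z _ _ hy hz =>
    rcases hy with rfl | rfl <;> rcases hz with rfl | rfl
    · left; simp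
    · right; simp
    · right; simp
    · left; exact ha
  | inv y _ hy =>
    rcases hy with rfl | rfl
    · left; simp
    · right
      exact inv_eq_of_mul_eq_one_right ha

/-- splitting off a commuting involution -/
theorem split {a x : G} {S T : Set G} (ha : a * a = 1) (hS : S ⊆ insert a T)
    (hc : ∀ t ∈ T, a * t = t * a) (h : x ∈ Subgroup.closure S) :
    x ∈ Subgroup.closure T ∨ ∃ y ∈ Subgroup.closure T, x = a * y ∧ a * y = y * a := by
  have hcomm : ∀ y ∈ Subgroup.closure T, a * y = y * a := by
    intro y hy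
    induction hy using Subgroup.closure_induction with
    | mem t ht => exact hc t ht
    | one => simp
    | mul y z _ _ hy hz => rw [← mul_assoc, hy, mul_assoc, hz, mul_assoc]
    | inv y _ hy =>
      have h1 : y⁻¹ * (a * y) * y⁻¹ = y⁻¹ * (y * a) * y⁻¹ := by rw [hy]
      simp only [mul_assoc, mul_inv_cancel, mul_one] at h1
      rw [← mul_assoc, inv_mul_cancel, one_mul] at h1
      exact h1.symm
  induction h using Subgroup.closure_induction with
  | mem y hy =>
    rcases hS hy with rfl | hy
    · right
      exact ⟨1, Subgroup.one_mem _, by simp, by simp⟩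
    · left
      exact Subgroup.subset_closure hy
  | one => left; exact Subgroup.one_mem _
  | mul y z _ _ hy hz =>
    rcases hy with hy | ⟨y', hy', rfl, -⟩ <;> rcases hz with hz | ⟨z', hz', rfl, -⟩
    · left; exact Subgroup.mul_mem _ hy hz
    · right
      refine ⟨y * z', Subgroup.mul_mem _ hy hz', ?_, hcomm _ (Subgroup.mul_mem _ hy hz')⟩
      rw [← mul_assoc, ← hcomm y hy, mul_assoc]
    · right
      refine ⟨y' * z, Subgroup.mul_mem _ hy' hz, ?_, hcomm _ (Subgroup.mul_mem _ hy' hz)⟩
      rw [mul_assoc]
    · left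
      have h1 : a * y' * (a * z') = y' * z' := by
        rw [hcomm y' hy', mul_assoc, ← mul_assoc a a z', ha, one_mul]
      rw [h1]
      exact Subgroup.mul_mem _ hy' hz'
  | inv y _ hy =>
    rcases hy with hy | ⟨y', hy', rfl, h2⟩
    · left; exact Subgroup.inv_mem _ hy
    · right
      refine ⟨y'⁻¹, Subgroup.inv_mem _ hy', ?_, hcomm _ (Subgroup.inv_mem _ hy')⟩
      rw [h2, mul_inv_rev, inv_eq_of_mul_eq_one_right ha]

end aux

theorem st4_thm : ST4Stmt := by
  intro G _ a b c d ha1 hb1 hc1 hd1 ha hb hc hd hac had hbd hab hbc hcd h1 h2 h3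
  have m3 : ∀ {S T : Set G} {x : G}, S ⊆ T → x ∈ Subgroup.closure S → x ∈ Subgroup.closure T :=
    fun hST hx => Subgroup.closure_mono hST hx
  -- the pairwise intersections
  have naB : a ∉ Subgroup.closure ({b, c} : Set G) := by
    intro h
    have h4 := h1 a (Subgroup.subset_closure (by simp)) h
    rcases mem_cl_one hb h4 with h | h
    · exact ha1 h
    · exact hab h
  have naD : a ∉ Subgroup.closure ({b, c, d} : Set G) := fun h =>
    naB (h3 a (Subgroup.subset_closure (by simp)) h)
  have ndB : d ∉ Subgroup.closure ({b, c} : Set G) := by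
    intro h
    have h4 := h2 d h (Subgroup.subset_closure (by simp))
    rcases mem_cl_one hc h4 with h | h
    · exact hd1 h
    · exact hcd h.symm
  have ndA : d ∉ Subgroup.closure ({a, b, c} : Set G) := fun h =>
    ndB (h3 d h (Subgroup.subset_closure (by simp)))
  -- decompositions
  have sp1 : ∀ x ∈ Subgroup.closure ({a, c, d} : Set G),
      x ∈ Subgroup.closure ({c, d} : Set G) ∨
        ∃ y ∈ Subgroup.closure ({c, d} : Set G), x = a * y ∧ a * y = y * a := by
    intro x hx
    exact split ha (by simp [Set.insert_subset_iff]) (by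
      intro t ht
      simp only [Set.mem_insert_iff, Set.mem_singleton_iff] at ht
      rcases ht with rfl | rfl
      · exact hac
      · exact had) hx
  have sp2 : ∀ x ∈ Subgroup.closure ({a, b, d} : Set G),
      x ∈ Subgroup.closure ({a, b} : Set G) ∨
        ∃ y ∈ Subgroup.closure ({a, b} : Set G), x = d * y ∧ d * y = y * d := by
    intro x hx
    exact split hd (by simp [Set.insert_subset_iff]) (by
      intro t ht
      simp only [Set.mem_insert_iff, Set.mem_singleton_iff] at ht
      rcases ht with rfl | rfl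
      · exact had.symm
      · exact hbd.symm) hx
  have p01 : ∀ x, x ∈ Subgroup.closure ({b, c, d} : Set G) →
      x ∈ Subgroup.closure ({a, c, d} : Set G) → x ∈ Subgroup.closure ({c, d} : Set G) := by
    intro x h0 hx
    rcases sp1 x hx with h | ⟨y, hy, rfl, -⟩
    · exact h
    · exfalso
      apply naD
      have hy' : y ∈ Subgroup.closure ({b, c, d} : Set G) :=
        m3 (by simp [Set.insert_subset_iff]) hy
      have := Subgroup.mul_mem _ h0 (Subgroup.inv_mem _ hy')
      rwa [mul_inv_cancel_right] at this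
  have p02 : ∀ x, x ∈ Subgroup.closure ({b, c, d} : Set G) →
      x ∈ Subgroup.closure ({a, b, d} : Set G) → x ∈ Subgroup.closure ({b, d} : Set G) := by
    intro x h0 hx
    have key : ∀ y, y ∈ Subgroup.closure ({a, b} : Set G) →
        y ∈ Subgroup.closure ({b, c, d} : Set G) → y ∈ Subgroup.closure ({b, d} : Set G) := by
      intro y hy hy2
      have h4 := h3 y (m3 (by simp [Set.insert_subset_iff]) hy) hy2
      exact m3 (by simp) (h1 y hy h4)
    rcases sp2 x hx with h | ⟨y, hy, rfl, -⟩
    · exact key x h h0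
    · have hd' : d ∈ Subgroup.closure ({b, c, d} : Set G) := Subgroup.subset_closure (by simp)
      have h5 := Subgroup.mul_mem _ (Subgroup.inv_mem _ hd') h0
      rw [inv_mul_cancel_left] at h5
      exact Subgroup.mul_mem _ (Subgroup.subset_closure (by simp)) (key y hy h5)
  have p13 : ∀ x, x ∈ Subgroup.closure ({a, c, d} : Set G) →
      x ∈ Subgroup.closure ({a, b, c} : Set G) → x ∈ Subgroup.closure ({a, c} : Set G) := by
    intro x hx h0
    have key : ∀ y, y ∈ Subgroup.closure ({c, d} : Set G) →
        y ∈ Subgroup.closure ({a, b, c} : Set G) → y ∈ Subgroup.closure ({a, c} : Set G) := by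
      intro y hy hy2
      have h4 := h3 y hy2 (m3 (by simp [Set.insert_subset_iff]) hy)
      exact m3 (by simp) (h2 y h4 hy)
    rcases sp1 x hx with h | ⟨y, hy, rfl, -⟩
    · exact key x h h0
    · have ha' : a ∈ Subgroup.closure ({a, b, c} : Set G) := Subgroup.subset_closure (by simp)
      have h5 := Subgroup.mul_mem _ (Subgroup.inv_mem _ ha') h0
      rw [inv_mul_cancel_left] at h5
      exact Subgroup.mul_mem _ (Subgroup.subset_closure (by simp)) (key y hy h5)
  have p23 : ∀ x, x ∈ Subgroup.closure ({a, b, d} : Set G) →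
      x ∈ Subgroup.closure ({a, b, c} : Set G) → x ∈ Subgroup.closure ({a, b} : Set G) := by
    intro x hx h0
    rcases sp2 x hx with h | ⟨y, hy, rfl, -⟩
    · exact h
    · exfalso
      apply ndA
      have hy' : y ∈ Subgroup.closure ({a, b, c} : Set G) :=
        m3 (by simp [Set.insert_subset_iff]) hy
      have := Subgroup.mul_mem _ h0 (Subgroup.inv_mem _ hy')
      rwa [mul_inv_cancel_right] at this
  have p12 : ∀ x, x ∈ Subgroup.closure ({a, c, d} : Set G) →
      x ∈ Subgroup.closure ({a, b, d} : Set G) → x ∈ Subgroup.closure ({a, d} : Set G) := by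
    intro x hx hx2
    have key : ∀ u, u ∈ Subgroup.closure ({a, b} : Set G) →
        u ∈ Subgroup.closure ({c, d} : Set G) → u = 1 := by
      intro u hu hu2
      have h4 := h3 u (m3 (by simp [Set.insert_subset_iff]) hu)
        (m3 (by simp [Set.insert_subset_iff]) hu2)
      rcases mem_cl_one hb (h1 u hu h4) with h | h
      · exact h
      · rcases mem_cl_one hc (h2 u h4 hu2) with h' | h'
        · exact h'
        · exact absurd (h.symm.trans h') hbc
    have a1 : a ∈ Subgroup.closure ({a, b} : Set G) := Subgroup.subset_closure (by simp)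
    have d1 : d ∈ Subgroup.closure ({c, d} : Set G) := Subgroup.subset_closure (by simp)
    have a2 : a ∈ Subgroup.closure ({a, d} : Set G) := Subgroup.subset_closure (by simp)
    have d2 : d ∈ Subgroup.closure ({a, d} : Set G) := Subgroup.subset_closure (by simp)
    rcases sp1 x hx with h | ⟨y, hy, hxy, -⟩
    · rcases sp2 x hx2 with h' | ⟨z, hz, hxz, -⟩
      · rw [key x h' h]
        exact Subgroup.one_mem _
      · -- x = d z, x in <c,d>
        have h5 : z ∈ Subgroup.closure ({c, d} : Set G) := by
          have := Subgroup.mul_mem _ (Subgroup.inv_mem _ d1) h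
          rwa [hxz, inv_mul_cancel_left] at this
        rw [hxz, key z hz h5, mul_one]
        exact d2
    · rcases sp2 x hx2 with h' | ⟨z, hz, hxz, hzc⟩
      · have h5 : y ∈ Subgroup.closure ({a, b} : Set G) := by
          have := Subgroup.mul_mem _ (Subgroup.inv_mem _ a1) h'
          rwa [hxy, inv_mul_cancel_left] at this
        rw [hxy, key y h5 hy, mul_one]
        exact a2
      · -- a y = z d
        have h6 : a * y = z * d := by rw [← hxy, hxz, hzc]
        have h7 : a⁻¹ * z = y * d⁻¹ := by
          rw [inv_mul_eq_iff_eq_mul, ← mul_assoc, h6, mul_inv_cancel_right]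
        have h8 : a⁻¹ * z = 1 := key _ (Subgroup.mul_mem _ (Subgroup.inv_mem _ a1) hz) (by
          rw [h7]
          exact Subgroup.mul_mem _ hy (Subgroup.inv_mem _ d1))
        have h9 : z = a := by
          rw [inv_mul_eq_one] at h8
          exact h8.symm
        rw [hxz, h9]
        exact Subgroup.mul_mem _ d2 a2
  have q0 : ∀ x, x ∈ Subgroup.closure ({a, b} : Set G) →
      x ∈ Subgroup.closure ({a, c} : Set G) → x ∈ Subgroup.closure ({a} : Set G) := by
    intro x hx hx2
    rcases split (T := ({c} : Set G)) ha (by simp [Set.insert_subset_iff]) (by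
      intro t ht
      rw [Set.mem_singleton_iff] at ht
      rw [ht]
      exact hac) hx2 with h | ⟨y, hy, rfl, -⟩
    · rcases mem_cl_one hc h with h' | h'
      · rw [h']; exact Subgroup.one_mem _
      · exfalso
        rw [h'] at hx
        have := h1 c hx (Subgroup.subset_closure (by simp))
        rcases mem_cl_one hb this with h | h
        · exact hc1 h
        · exact hbc h.symm
    · rcases mem_cl_one hc hy with h' | h'
      · rw [h', mul_one]; exact Subgroup.subset_closure (by simp)
      · exfalso
        have h5 := Subgroup.mul_mem _ (Subgroup.inv_mem _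
          (Subgroup.subset_closure (by simp : a ∈ ({a, b} : Set G)))) hx
        rw [inv_mul_cancel_left, h'] at h5
        have := h1 c h5 (Subgroup.subset_closure (by simp))
        rcases mem_cl_one hb this with h | h
        · exact hc1 h
        · exact hbc h.symm
  have q3 : ∀ x, x ∈ Subgroup.closure ({c, d} : Set G) →
      x ∈ Subgroup.closure ({b, d} : Set G) → x ∈ Subgroup.closure ({d} : Set G) := by
    intro x hx hx2
    rcases split (T := ({b} : Set G)) hd (by simp [Set.insert_subset_iff]) (by
      intro t ht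
      rw [Set.mem_singleton_iff] at ht
      rw [ht]
      exact hbd.symm) hx2 with h | ⟨y, hy, rfl, -⟩
    · rcases mem_cl_one hb h with h' | h'
      · rw [h']; exact Subgroup.one_mem _
      · exfalso
        rw [h'] at hx
        have := h2 b (Subgroup.subset_closure (by simp)) hx
        rcases mem_cl_one hc this with h | h
        · exact hb1 h
        · exact hbc h
    · rcases mem_cl_one hb hy with h' | h'
      · rw [h', mul_one]; exact Subgroup.subset_closure (by simp)
      · exfalso
        have h5 := Subgroup.mul_mem _ (Subgroup.inv_mem _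
          (Subgroup.subset_closure (by simp : d ∈ ({c, d} : Set G)))) hx
        rw [inv_mul_cancel_left, h'] at h5
        have := h2 b (Subgroup.subset_closure (by simp)) h5
        rcases mem_cl_one hc this with h | h
        · exact hb1 h
        · exact hbc h
  -- the generators
  set ρ : Fin 4 → G := ![a, b, c, d] with hρ
  have r0 : ρ 0 = a := rfl
  have r1 : ρ 1 = b := rfl
  have r2 : ρ 2 = c := rfl
  have r3 : ρ 3 = d := rfl
  have M0 : ∀ x ∈ Subgroup.closure (ρ '' {0}ᶜ), x ∈ Subgroup.closure ({b, c, d} : Set G) := by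
    intro x hx
    refine m3 ?_ hx
    rintro y ⟨i, hi, rfl⟩
    fin_cases i
    · exact absurd rfl hi
    · simp [r1]
    · simp [r2]
    · simp [r3]
  have M1 : ∀ x ∈ Subgroup.closure (ρ '' {1}ᶜ), x ∈ Subgroup.closure ({a, c, d} : Set G) := by
    intro x hx
    refine m3 ?_ hx
    rintro y ⟨i, hi, rfl⟩
    fin_cases i
    · simp [r0]
    · exact absurd rfl hi
    · simp [r2]
    · simp [r3]
  have M2 : ∀ x ∈ Subgroup.closure (ρ '' {2}ᶜ), x ∈ Subgroup.closure ({a, b, d} : Set G) := by
    intro x hx
    refine m3 ?_ hx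
    rintro y ⟨i, hi, rfl⟩
    fin_cases i
    · simp [r0]
    · simp [r1]
    · exact absurd rfl hi
    · simp [r3]
  have M3 : ∀ x ∈ Subgroup.closure (ρ '' {3}ᶜ), x ∈ Subgroup.closure ({a, b, c} : Set G) := by
    intro x hx
    refine m3 ?_ hx
    rintro y ⟨i, hi, rfl⟩
    fin_cases i
    · simp [r0]
    · simp [r1]
    · simp [r2]
    · exact absurd rfl hi
  have main : ∀ (I : Set (Fin 4)) (x : G), x ∈ Subgroup.closure (Set.range ρ) →
      (∀ k, k ∉ I → x ∈ Subgroup.closure (ρ '' {k}ᶜ)) → x ∈ Subgroup.closure (ρ '' I) := by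
    intro I x hx hk
    have i0 : 0 ∈ I → a ∈ ρ '' I := fun h => ⟨0, h, rfl⟩
    have i1 : 1 ∈ I → b ∈ ρ '' I := fun h => ⟨1, h, rfl⟩
    have i2 : 2 ∈ I → c ∈ ρ '' I := fun h => ⟨2, h, rfl⟩
    have i3 : 3 ∈ I → d ∈ ρ '' I := fun h => ⟨3, h, rfl⟩
    have K0 : 0 ∉ I → x ∈ Subgroup.closure ({b, c, d} : Set G) := fun h => M0 x (hk 0 h)
    have K1 : 1 ∉ I → x ∈ Subgroup.closure ({a, c, d} : Set G) := fun h => M1 x (hk 1 h)
    have K2 : 2 ∉ I → x ∈ Subgroup.closure ({a, b, d} : Set G) := fun h => M2 x (hk 2 h)
    have K3 : 3 ∉ I → x ∈ Subgroup.closure ({a, b, c} : Set G) := fun h => M3 x (hk 3 h)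
    have full : 0 ∈ I → 1 ∈ I → 2 ∈ I → 3 ∈ I → x ∈ Subgroup.closure (ρ '' I) := by
      intro h0 h1 h2 h3
      refine m3 ?_ hx
      rintro y ⟨i, rfl⟩
      fin_cases i
      · exact i0 h0
      · exact i1 h1
      · exact i2 h2
      · exact i3 h3
    by_cases c0 : (0 : Fin 4) ∈ I <;> by_cases c1 : (1 : Fin 4) ∈ I <;>
      by_cases c2 : (2 : Fin 4) ∈ I <;> by_cases c3 : (3 : Fin 4) ∈ I
    · exact full c0 c1 c2 c3
    · refine m3 ?_ (K3 c3)
      simp only [Set.insert_subset_iff, Set.singleton_subset_iff]
      exact ⟨i0 c0, i1 c1, i2 c2⟩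
    · refine m3 ?_ (K2 c2)
      simp only [Set.insert_subset_iff, Set.singleton_subset_iff]
      exact ⟨i0 c0, i1 c1, i3 c3⟩
    · refine m3 ?_ (p23 x (K2 c2) (K3 c3))
      simp only [Set.insert_subset_iff, Set.singleton_subset_iff]
      exact ⟨i0 c0, i1 c1⟩
    · refine m3 ?_ (K1 c1)
      simp only [Set.insert_subset_iff, Set.singleton_subset_iff]
      exact ⟨i0 c0, i2 c2, i3 c3⟩
    · refine m3 ?_ (p13 x (K1 c1) (K3 c3))
      simp only [Set.insert_subset_iff, Set.singleton_subset_iff]
      exact ⟨i0 c0, i2 c2⟩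
    · refine m3 ?_ (p12 x (K1 c1) (K2 c2))
      simp only [Set.insert_subset_iff, Set.singleton_subset_iff]
      exact ⟨i0 c0, i3 c3⟩
    · refine m3 ?_ (q0 x (p23 x (K2 c2) (K3 c3)) (p13 x (K1 c1) (K3 c3)))
      simp only [Set.singleton_subset_iff]
      exact i0 c0
    · refine m3 ?_ (K0 c0)
      simp only [Set.insert_subset_iff, Set.singleton_subset_iff]
      exact ⟨i1 c1, i2 c2, i3 c3⟩
    · refine m3 ?_ (h3 x (K3 c3) (K0 c0))
      simp only [Set.insert_subset_iff, Set.singleton_subset_iff]
      exact ⟨i1 c1, i2 c2⟩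
    · refine m3 ?_ (p02 x (K0 c0) (K2 c2))
      simp only [Set.insert_subset_iff, Set.singleton_subset_iff]
      exact ⟨i1 c1, i3 c3⟩
    · refine m3 ?_ (h1 x (p23 x (K2 c2) (K3 c3)) (h3 x (K3 c3) (K0 c0)))
      simp only [Set.singleton_subset_iff]
      exact i1 c1
    · refine m3 ?_ (p01 x (K0 c0) (K1 c1))
      simp only [Set.insert_subset_iff, Set.singleton_subset_iff]
      exact ⟨i2 c2, i3 c3⟩
    · refine m3 ?_ (h2 x (h3 x (K3 c3) (K0 c0)) (p01 x (K0 c0) (K1 c1)))
      simp only [Set.singleton_subset_iff]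
      exact i2 c2
    · refine m3 ?_ (q3 x (p01 x (K0 c0) (K1 c1)) (p02 x (K0 c0) (K2 c2)))
      simp only [Set.singleton_subset_iff]
      exact i3 c3
    · have e1 := mem_cl_one ha (q0 x (p23 x (K2 c2) (K3 c3)) (p13 x (K1 c1) (K3 c3)))
      have e2 := mem_cl_one hb (h1 x (p23 x (K2 c2) (K3 c3)) (h3 x (K3 c3) (K0 c0)))
      have e3 : x = 1 := by
        rcases e1 with h | h
        · exact h
        · rcases e2 with h' | h'
          · exact h'
          · exact absurd (h.symm.trans h') hab
      rw [e3]
      exact Subgroup.one_mem _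
  refine ⟨?_, ?_, ?_⟩
  · intro i
    have key : ∀ y : G, y ≠ 1 → y * y = 1 → orderOf y = 2 := by
      intro y hy hyy
      exact orderOf_eq_prime (by rw [pow_two]; exact hyy) hy
    fin_cases i
    · exact key a ha1 ha
    · exact key b hb1 hb
    · exact key c hc1 hc
    · exact key d hd1 hd
  · intro i j hij
    fin_cases i <;> fin_cases j <;> simp at hij
    · exact hac
    · exact had
    · exact hbd
  · intro I J
    apply le_antisymm
    · rintro x ⟨hI, hJ⟩
      apply main
      · exact m3 (Set.image_subset_range _ _) hI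
      · intro k hk
        by_cases hkI : k ∈ I
        · have hkJ : k ∉ J := fun h => hk ⟨hkI, h⟩
          refine m3 (Set.image_mono ?_) hJ
          intro y hy h
          rw [Set.mem_singleton_iff] at h
          exact hkJ (h ▸ hy)
        · refine m3 (Set.image_mono ?_) hI
          intro y hy h
          rw [Set.mem_singleton_iff] at h
          exact hkI (h ▸ hy)
    · apply le_inf
      · exact Subgroup.closure_mono (Set.image_mono Set.inter_subset_left)
      · exact Subgroup.closure_mono (Set.image_mono Set.inter_subset_right)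

end Pool.Agent.H43.SCG
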